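import Pool.Agent.E8helper19.EN.Stm

/-!
# Project EN, EN4: characterisation of normal laws (MP_a52643_an)
-/

set_option autoImplicit false

open MeasureTheory Filter Topology Set ProbabilityTheory
open scoped ENNReal NNReal Real

namespace Pool.Agent.E8helper87.EN

open Pool.Agent.E8helper19.EN

/-- the density -/
lemma pdf_eq (v : ℝ≥0) (x : ℝ) :
    gaussianPDFReal 0 v x = (√(2 * π * v))⁻¹ * Real.exp (-(2 * (v : ℝ))⁻¹ * x ^ 2) := by
  rw [gaussianPDFReal]
  congr 2
  rw [sub_zero, neg_div, div_eq_inv_mul, neg_mul]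

/-- the tail integral -/
lemma tail {b : ℝ} (hb : 0 < b) (t : ℝ) :
    ∫ x in Ioi t, x * Real.exp (-b * x ^ 2) = Real.exp (-b * t ^ 2) / (2 * b) := by
  have hd : ∀ x : ℝ, HasDerivAt (fun x : ℝ => -(Real.exp (-b * x ^ 2) / (2 * b)))
      (x * Real.exp (-b * x ^ 2)) x := by
    intro x
    have h1 : HasDerivAt (fun x : ℝ => -b * x ^ 2) (-b * (2 * x)) x := by
      have h2 := (hasDerivAt_pow 2 x).const_mul (-b)
      simpa using h2
    have h3 := ((h1.exp).div_const (2 * b)).neg
    have e1 : x * Real.exp (-b * x ^ 2) =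
        -(Real.exp (-b * x ^ 2) * (-b * (2 * x)) / (2 * b)) := by
      have hb' : b ≠ 0 := hb.ne'
      field_simp
    rw [e1]
    exact h3
  have hlim : Tendsto (fun x : ℝ => -(Real.exp (-b * x ^ 2) / (2 * b))) atTop (𝓝 0) := by
    have h1 : Tendsto (fun x : ℝ => b * x ^ 2) atTop atTop :=
      (tendsto_pow_atTop two_ne_zero).const_mul_atTop hb
    have h2 : Tendsto (fun x : ℝ => -b * x ^ 2) atTop atBot := by
      have h3 := tendsto_neg_atTop_atBot.comp h1
      refine h3.congr fun x => ?_
      simp only [Function.comp_apply, neg_mul]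
    have h3 := ((Real.tendsto_exp_atBot.comp h2).div_const (2 * b)).neg
    simpa using h3
  have h := integral_Ioi_of_hasDerivAt_of_tendsto' (a := t) (fun x _ => hd x)
    (integrable_mul_exp_neg_mul_sq hb).integrableOn hlim
  rw [h]
  ring

/-- the measurability of `HH` -/
lemma meas_HH (ν : Measure ℝ) [IsFiniteMeasure ν] : Measurable (HH ν) := by
  have h1 : StronglyMeasurable (fun p : ℝ × ℝ => (Ioi p.1).indicator (fun x : ℝ => x) p.2) := by
    have h2 : (fun p : ℝ × ℝ => (Ioi p.1).indicator (fun x : ℝ => x) p.2) =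
        {p : ℝ × ℝ | p.1 < p.2}.indicator (fun p => p.2) := by
      funext p
      rfl
    rw [h2]
    exact (measurable_snd.indicator (measurableSet_lt measurable_fst measurable_snd)).stronglyMeasurable
  have h3 := h1.integral_prod_right' (ν := ν)
  have h4 : HH ν = fun t => ∫ x, (Ioi t).indicator (fun x : ℝ => x) x ∂ν := by
    funext t
    rw [integral_indicator measurableSet_Ioi]
    rfl
  rw [h4]
  exact h3.measurable

lemma HH_nonneg {ν : Measure ℝ} (hi : Integrable (fun x : ℝ => x) ν)
    (h0 : ∫ x, x ∂ν = 0) (t : ℝ) : 0 ≤ HH ν t := by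
  rcases le_or_gt 0 t with ht | ht
  · exact setIntegral_nonneg measurableSet_Ioi fun x hx => ht.trans (le_of_lt hx)
  · have h1 := integral_add_compl (measurableSet_Ioi (a := t)) hi
    rw [h0] at h1
    have h2 : ∫ x in (Ioi t)ᶜ, x ∂ν ≤ 0 := by
      refine setIntegral_nonpos measurableSet_Ioi.compl fun x hx => ?_
      have h3 : ¬ t < x := hx
      linarith [not_lt.1 h3]
    have h3 : HH ν t = ∫ x in Ioi t, x ∂ν := rfl
    linarith

lemma HH_le {ν : Measure ℝ} (hi : Integrable (fun x : ℝ => x) ν) (t : ℝ) :
    HH ν t ≤ ∫ x, |x| ∂ν := by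
  calc HH ν t ≤ ∫ x in Ioi t, |x| ∂ν :=
        setIntegral_mono hi.integrableOn hi.abs.integrableOn fun x => le_abs_self x
    _ ≤ ∫ x, |x| ∂ν := setIntegral_le_integral hi.abs (ae_of_all _ fun x => abs_nonneg x)

/-- **EN4** -/
theorem t_GAUSS : S_GAUSS := by
  intro ν v hν hv hi2 h0
  have hvp : (0 : ℝ) < v := by
    have : (0 : ℝ≥0) < v := pos_iff_ne_zero.2 hv
    exact_mod_cast this
  have hi : Integrable (fun x : ℝ => x) ν := by
    have h1 : MemLp (fun x : ℝ => x) 2 ν :=
      (memLp_two_iff_integrable_sq measurable_id.aestronglyMeasurable).2 hi2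
    exact h1.integrable (by norm_num)
  have hb : (0 : ℝ) < (2 * (v : ℝ))⁻¹ := by positivity
  set b : ℝ := (2 * (v : ℝ))⁻¹ with hbdef
  have hk : (0 : ℝ) < (√(2 * π * v))⁻¹ := by positivity
  have hbv : (v : ℝ) * (2 * b) = 1 := by
    rw [hbdef]
    field_simp
  constructor
  · intro hg
    have hm := meas_HH ν
    have hnn := HH_nonneg hi h0
    set f : ℝ → ℝ≥0 := fun t => Real.toNNReal (HH ν t / v) with hf
    have hfm : Measurable f := (hm.div_const _).real_toNNReal
    have hfr : ∀ t, (f t : ℝ) = HH ν t / v := fun t => Real.coe_toNNReal _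
      (div_nonneg (hnn t) hvp.le)
    -- local finiteness
    have hlf : IsLocallyFiniteMeasure ((volume : Measure ℝ).withDensity fun t => (f t : ℝ≥0∞)) := by
      refine ⟨fun x => ⟨Ioo (x - 1) (x + 1), Ioo_mem_nhds (by linarith) (by linarith), ?_⟩⟩
      rw [withDensity_apply _ measurableSet_Ioo]
      calc ∫⁻ t in Ioo (x - 1) (x + 1), (f t : ℝ≥0∞)
          ≤ ∫⁻ _ in Ioo (x - 1) (x + 1), ENNReal.ofReal ((∫ x, |x| ∂ν) / v) := by
            refine lintegral_mono fun t => ?_
            show ENNReal.ofReal (HH ν t / v) ≤ _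
            exact ENNReal.ofReal_le_ofReal (div_le_div_of_nonneg_right (HH_le hi t) hvp.le)
        _ < ⊤ := by
            rw [setLIntegral_const, Real.volume_Ioo]
            exact ENNReal.mul_lt_top ENNReal.ofReal_lt_top ENNReal.ofReal_lt_top
    have hνe : ν = (volume : Measure ℝ).withDensity fun t => (f t : ℝ≥0∞) := by
      refine Measure.ext_of_integral_eq_on_compactlySupported fun g => ?_
      have h1 := hg g g.continuous g.hasCompactSupport
      rw [integral_withDensity_eq_integral_smul hfm]
      have h2 : ∫ t, f t • g t = (v : ℝ)⁻¹ * ∫ t, g t * HH ν t := by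
        rw [← integral_const_mul]
        refine integral_congr_ae (ae_of_all _ fun t => ?_)
        show f t • g t = _
        rw [NNReal.smul_def, hfr, smul_eq_mul]
        ring
      rw [h2, h1, ← mul_assoc, inv_mul_cancel₀ hvp.ne', one_mul]
    -- the integral equation
    set F : ℝ → ℝ := fun x => HH ν x / v * x with hF
    have hFi : Integrable F := by
      have h1 : Integrable (fun x : ℝ => x)
          ((volume : Measure ℝ).withDensity fun t => (f t : ℝ≥0∞)) := by
        rw [← hνe]
        exact hi
      rw [integrable_withDensity_iff_integrable_smul hfm] at h1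
      refine h1.congr (ae_of_all _ fun t => ?_)
      show f t • t = HH ν t / v * t
      rw [NNReal.smul_def, hfr, smul_eq_mul]
    have hH : ∀ t, HH ν t = ∫ x in Ioi t, F x := by
      intro t
      have h1 : HH ν t = ∫ x in Ioi t, x
          ∂((volume : Measure ℝ).withDensity fun t => (f t : ℝ≥0∞)) := by
        rw [← hνe]
        rfl
      rw [h1, setIntegral_withDensity_eq_setIntegral_smul hfm _ measurableSet_Ioi]
      refine integral_congr_ae (ae_of_all _ fun x => ?_)
      show f x • x = HH ν x / v * x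
      rw [NNReal.smul_def, hfr, smul_eq_mul]
    have hH2 : ∀ t, HH ν t = HH ν 0 - ∫ x in (0 : ℝ)..t, F x := by
      intro t
      have h1 := intervalIntegral.integral_Ioi_sub_Ioi' (μ := volume) (a := 0) (b := t)
        hFi.integrableOn hFi.integrableOn
      rw [← hH, ← hH] at h1
      linarith
    have hHc : Continuous (HH ν) := by
      have h1 : Continuous fun t => HH ν 0 - ∫ x in (0 : ℝ)..t, F x :=
        continuous_const.sub (intervalIntegral.continuous_primitive
          (fun a b => hFi.intervalIntegrable) 0)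
      have h2 : HH ν = fun t => HH ν 0 - ∫ x in (0 : ℝ)..t, F x := funext hH2
      rw [h2]
      exact h1
    have hFc : Continuous F := (hHc.div_const _).mul continuous_id
    have hHd : ∀ t, HasDerivAt (HH ν) (-F t) t := by
      intro t
      have h1 := ((hFc.integral_hasStrictDerivAt 0 t).hasDerivAt).const_sub (HH ν 0)
      have h2 : HH ν = fun t => HH ν 0 - ∫ x in (0 : ℝ)..t, F x := funext hH2
      rw [h2]
      exact h1
    -- the solution
    have hK : ∀ t, HasDerivAt (fun t => HH ν t * Real.exp (b * t ^ 2)) 0 t := by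
      intro t
      have h1 : HasDerivAt (fun x : ℝ => b * x ^ 2) (b * (2 * t)) t := by
        have h2 := (hasDerivAt_pow 2 t).const_mul b
        simpa using h2
      have h2 := (hHd t).mul h1.exp
      have e1 : (0 : ℝ) = -F t * Real.exp (b * t ^ 2) +
          HH ν t * (Real.exp (b * t ^ 2) * (b * (2 * t))) := by
        have e2 : F t = HH ν t * (2 * b) * t := by
          show HH ν t / v * t = HH ν t * (2 * b) * t
          have e3 : (2 * b : ℝ) = (v : ℝ)⁻¹ := eq_inv_of_mul_eq_one_right hbv
          rw [e3, div_eq_mul_inv]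
        rw [e2]
        ring
      rw [e1]
      exact h2
    have hsol : ∀ t, HH ν t = HH ν 0 * Real.exp (-b * t ^ 2) := by
      intro t
      have h1 : HH ν t * Real.exp (b * t ^ 2) = HH ν 0 * Real.exp (b * 0 ^ 2) :=
        is_const_of_deriv_eq_zero (fun t => (hK t).differentiableAt)
          (fun t => (hK t).deriv) t 0
      have h2 : Real.exp (b * t ^ 2) * Real.exp (-b * t ^ 2) = 1 := by
        rw [← Real.exp_add]
        have : b * t ^ 2 + -b * t ^ 2 = 0 := by ring
        rw [this, Real.exp_zero]
      have h3 : HH ν t * Real.exp (b * t ^ 2) = HH ν 0 := by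
        rw [h1]
        simp
      rw [← h3, mul_assoc, h2, mul_one]
    set c : ℝ := HH ν 0 / v / (√(2 * π * v))⁻¹ with hc
    have hc0 : 0 ≤ c := div_nonneg (div_nonneg (hnn 0) hvp.le) hk.le
    have hνc : ν = ENNReal.ofReal c • gaussianReal 0 v := by
      rw [gaussianReal_of_var_ne_zero _ hv, ← withDensity_smul _ (measurable_gaussianPDF 0 v)]
      conv_lhs => rw [hνe]
      congr 1
      funext t
      show ENNReal.ofReal (HH ν t / v) = ENNReal.ofReal c • ENNReal.ofReal (gaussianPDFReal 0 v t)
      rw [smul_eq_mul, ← ENNReal.ofReal_mul hc0]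
      congr 1
      rw [pdf_eq, hsol t, hc]
      have hk' : (√(2 * π * v))⁻¹ ≠ 0 := hk.ne'
      rw [← mul_assoc, div_mul_cancel₀ _ hk']
      ring
    have h1 : ν univ = ENNReal.ofReal c := by
      rw [hνc, Measure.smul_apply, measure_univ, smul_eq_mul, mul_one]
    rw [h1]
    exact hνc
  · intro hν2 g hgc hgs
    set c : ℝ≥0∞ := ν univ with hc
    have hcr : ∀ t, HH ν t = c.toReal * (v * gaussianPDFReal 0 v t) := by
      intro t
      have h1 : HH ν t = ∫ x, (Ioi t).indicator (fun x : ℝ => x) x ∂ν := by
        rw [integral_indicator measurableSet_Ioi]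
        rfl
      rw [h1, hν2, integral_smul_measure, integral_gaussianReal_eq_integral_smul hv, smul_eq_mul]
      congr 1
      have h2 : (fun x => gaussianPDFReal 0 v x • (Ioi t).indicator (fun x : ℝ => x) x) =
          (Ioi t).indicator (fun x : ℝ => (√(2 * π * v))⁻¹ * (x * Real.exp (-b * x ^ 2))) := by
        funext x
        by_cases hx : x ∈ Ioi t
        · rw [indicator_of_mem hx, indicator_of_mem hx, smul_eq_mul, pdf_eq]
          ring
        · rw [indicator_of_notMem hx, indicator_of_notMem hx, smul_zero]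
      rw [h2, integral_indicator measurableSet_Ioi, integral_const_mul, tail hb, pdf_eq]
      have h3 : Real.exp (-b * t ^ 2) / (2 * b) = v * Real.exp (-b * t ^ 2) := by
        rw [div_eq_iff (by positivity)]
        linear_combination -Real.exp (-b * t ^ 2) * hbv
      rw [h3]
      ring
    have h2 : ∫ x, g x ∂ν = c.toReal * ∫ x, gaussianPDFReal 0 v x * g x := by
      rw [hν2, integral_smul_measure, integral_gaussianReal_eq_integral_smul hv, smul_eq_mul]
      rfl
    rw [h2, ← mul_assoc, ← integral_const_mul]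
    refine integral_congr_ae (ae_of_all _ fun t => ?_)
    show g t * HH ν t = v * c.toReal * (gaussianPDFReal 0 v t * g t)
    rw [hcr]
    ring

end Pool.Agent.E8helper87.EN
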